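import Pool.Agent.HMA.Main

/-!
# MP_c617b9_an: a solution of a Monge-Ampere equation that is not Hoelder continuous

There are a compact connected Kaehler threefold `X`, a smooth closed semi-positive `(1,1)`-form
`ω` with positive volume, a smooth volume form `dV` and a BOUNDED density `f ≥ 0` with
`∫ f dV = ∫ ω³` such that `(ω + dd^c φ)³ = f dV` has a continuous `ω`-plurisubharmonic solution
`φ` which is not Hoelder continuous.  This is the negated form of Q1.

The manifold is the `ℙ¹`-bundle `ℙ(O ⊕ L)` over the abelian surface `ℂ²/ℤ[i]²`, `L` ample, and `ω`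
restricts on the zero section to the rank one form `dd^c (π |θ·x|²)`, `x = Re z`, `θ = (1, φ)` with
the golden ratio `φ`.  All definitions of the statement are in `Pool/Agent/HMA/Defs.lean`.
-/

open MeasureTheory Set
open scoped Manifold ContDiff ENNReal

namespace Pool.Agent.Results.MP_c617b9_an.NotHoelder

open HMA

/-- **The negated form of Q1.** -/
theorem result : ∃ (X : Type) (_ : TopologicalSpace X) (_ : ChartedSpace (Cn 3) X)
    (_ : MeasurableSpace X) (_ : BorelSpace X)
    (_ : IsManifold 𝓘(ℂ, Cn 3) ω X) (_ : CompactSpace X) (_ : T2Space X) (_ : ConnectedSpace X)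
    (Ka Om : ClosedForm 3 X) (dV VOm : Measure X) (f φ : X → ℝ),
    -- `Ka` is a Kaehler form, `Om` is semi-positive, `dV` is a smooth volume form
    Ka.IsKaehler ∧ Om.SemiPositive ∧ IsSmoothVolume 3 dV ∧
    -- `VOm` is the measure `Om³` and its total mass is positive: `Om` is big
    Om.IsTopPower VOm ∧ 0 < VOm univ ∧
    -- the density `f` is nonnegative and bounded, hence in every `L^p`, and has the right mass
    Measurable f ∧ (∃ C : ℝ, ∀ x, 0 ≤ f x ∧ f x ≤ C) ∧ (∀ p : ℝ≥0∞, MemLp f p dV) ∧
    (dV.withDensity fun x => ENNReal.ofReal (f x)) univ = VOm univ ∧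
    -- `φ` is a continuous (bounded) `Om`-psh solution of `(Om + dd^c φ)³ = f dV`
    Continuous φ ∧ (∃ C : ℝ, ∀ x, |φ x| ≤ C) ∧ Om.IsPsh φ ∧
    Om.SolvesMA φ (dV.withDensity fun x => ENNReal.ofReal (f x)) ∧
    -- `φ` is not Hoelder continuous
    ¬ LocallyHoelderInCharts 3 φ ∧
    ∀ d : X → X → ℝ, LipschitzInCharts 3 d → ¬ HoelderWrt d φ :=
  HMA.main

end Pool.Agent.Results.MP_c617b9_an.NotHoelder
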